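import Pool.Agent.Helper60.PW.Defs2

/-!
Module E1 of MP_124889_co: a Fischer pairing of two explicit products does not vanish.
-/

open MvPolynomial

namespace PoolPW

section pairing

variable {V : Type*} [Fintype V]

private lemma e1_prL_as_sum (F R : MvPolynomial V ℝ) :
    ModB.prL F R = ∑ α ∈ R.support, coeff α R * (ModB.fac α * coeff α F) := by
  conv_lhs => rw [R.as_sum, map_sum]
  exact Finset.sum_congr rfl fun α _ => ModB.prL_monomial _ _ _

private lemma e1_prL_symm (F R : MvPolynomial V ℝ) : ModB.prL F R = ModB.prL R F := by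
  classical
  have h : ∀ A B : MvPolynomial V ℝ, ModB.prL A B =
      ∑ α ∈ A.support ∪ B.support, ModB.fac α * (coeff α A * coeff α B) := by
    intro A B
    rw [e1_prL_as_sum]
    rw [Finset.sum_subset (Finset.subset_union_right (s₁ := A.support))]
    · exact Finset.sum_congr rfl fun α _ => by ring
    · intro α _ hα
      rw [notMem_support_iff.mp hα, zero_mul]
  rw [h, h, Finset.union_comm]
  exact Finset.sum_congr rfl fun α _ => by ring

/-- every monomial has weight at least `n` -/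
private def E1Hi (w : V → ℕ) (n : ℕ) (R : MvPolynomial V ℝ) : Prop :=
  ∀ m ∈ R.support, n ≤ Finsupp.weight w m

omit [Fintype V] in
private lemma e1_hi_zero (w : V → ℕ) (R : MvPolynomial V ℝ) : E1Hi w 0 R :=
  fun _ _ => Nat.zero_le _

omit [Fintype V] in
private lemma e1_hi_mul {w : V → ℕ} {n m : ℕ} {P Q : MvPolynomial V ℝ} (hP : E1Hi w n P)
    (hQ : E1Hi w m Q) : E1Hi w (n + m) (P * Q) := by
  classical
  intro α hα
  obtain ⟨x, hx, y, hy, rfl⟩ := Finset.mem_add.mp (support_mul P Q hα)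
  rw [map_add]
  exact Nat.add_le_add (hP x hx) (hQ y hy)

omit [Fintype V] in
private lemma e1_hi_of_hom {w : V → ℕ} {n : ℕ} {P : MvPolynomial V ℝ}
    (hP : P.IsWeightedHomogeneous w n) : E1Hi w n P :=
  fun m hm => (hP (mem_support_iff.mp hm)).ge

private lemma e1_orth {w : V → ℕ} {u : ℕ} {F R : MvPolynomial V ℝ}
    (hF : F.IsWeightedHomogeneous w u) (hR : E1Hi w (u + 1) R) : ModB.prL F R = 0 := by
  rw [e1_prL_as_sum]
  refine Finset.sum_eq_zero fun α hα => ?_
  have h1 := hR α hα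
  have h2 : coeff α F = 0 := by
    by_contra h
    have := hF h
    omega
  rw [h2, mul_zero, mul_zero]

private lemma e1_replace {w : V → ℕ} {u : ℕ} {F : MvPolynomial V ℝ}
    (hF : F.IsWeightedHomogeneous w u) (b : V) (N : Finset V) (hN : ∀ v ∈ N, w v = 1) :
    ∀ R : MvPolynomial V ℝ, E1Hi w u R →
      ModB.prL F ((∏ v ∈ N, (X b - X v)) * R) = ModB.prL F (X b ^ N.card * R) := by
  classical
  induction N using Finset.induction_on with
  | empty => intro R _; simp
  | insert v N hv ih =>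
    intro R hR
    have hN' : ∀ v ∈ N, w v = 1 := fun x hx => hN x (Finset.mem_insert_of_mem hx)
    rw [Finset.prod_insert hv, Finset.card_insert_of_notMem hv]
    have e1 : (X b - X v) * (∏ v ∈ N, (X b - X v)) * R =
        (∏ v ∈ N, (X b - X v)) * (X b * R) -
          (X v * ((∏ v ∈ N, (X b - X v)) * R) : MvPolynomial V ℝ) := by ring
    have h1 : E1Hi w u (X b * R) := by
      have := e1_hi_mul (e1_hi_zero w (X b)) hR
      rwa [zero_add] at this
    have h2 : E1Hi w (u + 1) (X v * ((∏ v ∈ N, (X b - X v)) * R) : MvPolynomial V ℝ) := by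
      have a1 : E1Hi w 1 (X v : MvPolynomial V ℝ) := by
        have := isWeightedHomogeneous_X ℝ w v
        rw [hN v (Finset.mem_insert_self _ _)] at this
        exact e1_hi_of_hom this
      have := e1_hi_mul a1 (e1_hi_mul (e1_hi_zero w (∏ v ∈ N, (X b - X v))) hR)
      rwa [zero_add, add_comm] at this
    rw [e1, map_sub, e1_orth hF h2, sub_zero, ih hN' _ h1]
    congr 1
    ring

private lemma e1_prL_X_mul (F R : MvPolynomial V ℝ) (v : V) :
    ModB.prL F (X v * R) = ModB.prL (pderiv v F) R := by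
  rw [mul_comm, ModB.prL_mul_X]

private lemma e1_norm (b r : V) (hbr : b ≠ r) (U : MvPolynomial V ℝ)
    (hUb : pderiv b U = 0) (hUr : pderiv r U = 0) : ∀ k l i j : ℕ,
    ModB.prL (X b ^ i * X r ^ j * U) (X b ^ k * X r ^ l * U) =
      if i = k ∧ j = l then (i.factorial : ℝ) * j.factorial * ModB.prL U U else 0 := by
  classical
  have hdb : ∀ i j : ℕ, pderiv b (X b ^ i * X r ^ j * U) =
      (i : ℝ) • (X b ^ (i - 1) * X r ^ j * U) := by
    intro i j
    rw [Derivation.leibniz, hUb, Derivation.leibniz, Derivation.leibniz_pow,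
      Derivation.leibniz_pow, pderiv_X_self, pderiv_X_of_ne hbr.symm]
    simp only [smul_eq_mul, nsmul_eq_mul, smul_eq_C_mul, map_natCast]
    ring
  have hdr : ∀ i j : ℕ, pderiv r (X b ^ i * X r ^ j * U) =
      (j : ℝ) • (X b ^ i * X r ^ (j - 1) * U) := by
    intro i j
    rw [Derivation.leibniz, hUr, Derivation.leibniz, Derivation.leibniz_pow,
      Derivation.leibniz_pow, pderiv_X_self, pderiv_X_of_ne hbr]
    simp only [smul_eq_mul, nsmul_eq_mul, smul_eq_C_mul, map_natCast]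
    ring
  have kb : ∀ k l i j : ℕ, ModB.prL (X b ^ i * X r ^ j * U) (X b ^ (k + 1) * X r ^ l * U) =
      i * ModB.prL (X b ^ (i - 1) * X r ^ j * U) (X b ^ k * X r ^ l * U) := by
    intro k l i j
    rw [show (X b ^ (k + 1) * X r ^ l * U : MvPolynomial V ℝ) = X b * (X b ^ k * X r ^ l * U) by
      ring, e1_prL_X_mul, hdb, map_smul, LinearMap.smul_apply, smul_eq_mul]
  have kr : ∀ k l i j : ℕ, ModB.prL (X b ^ i * X r ^ j * U) (X b ^ k * X r ^ (l + 1) * U) =
      j * ModB.prL (X b ^ i * X r ^ (j - 1) * U) (X b ^ k * X r ^ l * U) := by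
    intro k l i j
    rw [show (X b ^ k * X r ^ (l + 1) * U : MvPolynomial V ℝ) = X r * (X b ^ k * X r ^ l * U) by
      ring, e1_prL_X_mul, hdr, map_smul, LinearMap.smul_apply, smul_eq_mul]
  intro k
  induction k with
  | zero =>
    intro l
    induction l with
    | zero =>
      intro i j
      rcases i with _ | i
      · rcases j with _ | j
        · simp
        · rw [e1_prL_symm, kr]
          simp
      · rw [e1_prL_symm, kb]
        simp
    | succ l ih =>
      intro i j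
      rw [kr, ih]
      rcases j with _ | j
      · simp
      · simp only [Nat.add_sub_cancel, add_left_inj]
        split_ifs with h
        · rw [Nat.factorial_succ]; push_cast; ring
        · rw [mul_zero]
  | succ k ih =>
    intro l i j
    rw [kb, ih]
    rcases i with _ | i
    · simp
    · simp only [Nat.add_sub_cancel, add_left_inj]
      split_ifs with h
      · rw [Nat.factorial_succ]; push_cast; ring
      · rw [mul_zero]

private lemma e1_hom_lin {w : V → ℕ} {x y : V} (hx : w x = 0) (hy : w y = 0) :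
    (X x - X y : MvPolynomial V ℝ).IsWeightedHomogeneous w 0 := by
  have h1 := isWeightedHomogeneous_X ℝ w x
  have h2 := isWeightedHomogeneous_X ℝ w y
  rw [hx] at h1
  rw [hy] at h2
  exact (weightedHomogeneousSubmodule ℝ w 0).sub_mem h1 h2

private lemma e1_hom_X {w : V → ℕ} {x : V} (hx : w x = 0) :
    (X x : MvPolynomial V ℝ).IsWeightedHomogeneous w 0 := by
  have h1 := isWeightedHomogeneous_X ℝ w x
  rwa [hx] at h1

private lemma e1_hom_pow {w : V → ℕ} {P : MvPolynomial V ℝ} (hP : P.IsWeightedHomogeneous w 0)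
    (n : ℕ) : (P ^ n).IsWeightedHomogeneous w 0 := by
  have := hP.pow n
  simpa using this

private lemma e1_hom_prod {w : V → ℕ} {x : V} (hx : w x = 0) (N : Finset V)
    (hN : ∀ v ∈ N, w v = 0) :
    (∏ v ∈ N, (X x - X v) : MvPolynomial V ℝ).IsWeightedHomogeneous w 0 := by
  have := IsWeightedHomogeneous.prod N (fun v => (X x - X v : MvPolynomial V ℝ)) (fun _ => 0)
    (fun v hv => e1_hom_lin (w := w) hx (hN v hv))
  simpa using this

private lemma e1_hom_mul0 {w : V → ℕ} {n : ℕ} {P Q : MvPolynomial V ℝ}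
    (hP : P.IsWeightedHomogeneous w 0) (hQ : Q.IsWeightedHomogeneous w n) :
    (P * Q).IsWeightedHomogeneous w n := by
  have := hP.mul hQ
  rwa [zero_add] at this

end pairing

/-- Module E1 (pairing).  Everything in `MvPolynomial V ℝ` with the Fischer pairing
`ModB.prL` of Pool/Agent/Helper12/PW/B.lean. -/
theorem pairing_core {V : Type*} [Fintype V] (b r : V) (hbr : b ≠ r) (G S : V → Prop)
    (U : MvPolynomial V ℝ) (hU : U ≠ 0) (hUb : pderiv b U = 0) (hUr : pderiv r U = 0)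
    (wG wS : V → ℕ) (hwG : ∀ v, (G v → wG v = 1) ∧ (¬ G v → wG v = 0))
    (hwS : ∀ v, (S v → wS v = 1) ∧ (¬ S v → wS v = 0))
    (uG uS : ℕ) (hG : U.IsWeightedHomogeneous wG uG) (hS : U.IsWeightedHomogeneous wS uS)
    (hGS : ∀ v, ¬ (G v ∧ S v)) (hGb : ¬ G b) (hGr : ¬ G r) (hSb : ¬ S b) (hSr : ¬ S r)
    (Nb Nr Bb Br : Finset V) (hNb : ∀ v ∈ Nb, G v) (hNr : ∀ v ∈ Nr, G v)
    (hBb : ∀ v ∈ Bb, S v) (hBr : ∀ v ∈ Br, S v) (ε η pb pr : ℕ)
    (hnum : (ε = 0 ∧ η = 0 ∧ Bb.card + pb = Nb.card ∧ Br.card + pr = Nr.card) ∨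
      (ε = 1 ∧ η = 0 ∧ Bb.card + pb = Nb.card + 1 ∧ Br.card + pr = Nr.card) ∨
      (ε = 1 ∧ η = 0 ∧ Bb.card + pb = Nb.card ∧ Br.card + pr = Nr.card + 1) ∨
      (ε = 1 ∧ η = 1 ∧ Bb.card + pb = Nb.card ∧ Br.card + pr = Nr.card ∧ Nb.card ≠ Nr.card) ∨
      (ε = 1 ∧ η = 1 ∧ Bb.card + pb + 1 = Nb.card ∧ Br.card + pr = Nr.card + 1)) :
    ModB.prL ((X b + X r) ^ η * (∏ v ∈ Bb, (X b - X v)) * (∏ v ∈ Br, (X r - X v)) *
        X b ^ pb * X r ^ pr * U)
      ((X b - X r) ^ ε * (∏ v ∈ Nb, (X b - X v)) * (∏ v ∈ Nr, (X r - X v)) * U) ≠ 0 := by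
  classical
  have gb : wG b = 0 := (hwG b).2 hGb
  have gr : wG r = 0 := (hwG r).2 hGr
  have sb : wS b = 0 := (hwS b).2 hSb
  have sr : wS r = 0 := (hwS r).2 hSr
  have gBb : ∀ v ∈ Bb, wG v = 0 := fun v hv => (hwG v).2 fun h => hGS v ⟨h, hBb v hv⟩
  have gBr : ∀ v ∈ Br, wG v = 0 := fun v hv => (hwG v).2 fun h => hGS v ⟨h, hBr v hv⟩
  have gNb : ∀ v ∈ Nb, wG v = 1 := fun v hv => (hwG v).1 (hNb v hv)
  have gNr : ∀ v ∈ Nr, wG v = 1 := fun v hv => (hwG v).1 (hNr v hv)
  have sBb : ∀ v ∈ Bb, wS v = 1 := fun v hv => (hwS v).1 (hBb v hv)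
  have sBr : ∀ v ∈ Br, wS v = 1 := fun v hv => (hwS v).1 (hBr v hv)
  -- step 1
  have hplus : ∀ w : V → ℕ, w b = 0 → w r = 0 → ∀ n : ℕ,
      ((X b + X r : MvPolynomial V ℝ) ^ n).IsWeightedHomogeneous w 0 := by
    intro w h1 h2 n
    exact e1_hom_pow ((weightedHomogeneousSubmodule ℝ w 0).add_mem (e1_hom_X h1) (e1_hom_X h2)) n
  have hF : ((X b + X r) ^ η * (∏ v ∈ Bb, (X b - X v)) * (∏ v ∈ Br, (X r - X v)) *
        X b ^ pb * X r ^ pr * U : MvPolynomial V ℝ).IsWeightedHomogeneous wG uG := by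
    refine e1_hom_mul0 ?_ hG
    refine e1_hom_mul0 ?_ (e1_hom_pow (e1_hom_X gr) _)
    refine e1_hom_mul0 ?_ (e1_hom_pow (e1_hom_X gb) _)
    refine e1_hom_mul0 ?_ (e1_hom_prod gr _ gBr)
    exact e1_hom_mul0 (hplus _ gb gr _) (e1_hom_prod gb _ gBb)
  have hUG := e1_hi_of_hom hG
  have step1 : ∀ F : MvPolynomial V ℝ, F.IsWeightedHomogeneous wG uG →
      ModB.prL F ((X b - X r) ^ ε * (∏ v ∈ Nb, (X b - X v)) * (∏ v ∈ Nr, (X r - X v)) * U) =
      ModB.prL F ((X b - X r) ^ ε * X b ^ Nb.card * X r ^ Nr.card * U) := by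
    intro F hF
    have h1 : E1Hi wG uG ((X b - X r) ^ ε * (∏ v ∈ Nr, (X r - X v)) * U) := by
      have := e1_hi_mul (e1_hi_zero wG ((X b - X r) ^ ε * (∏ v ∈ Nr, (X r - X v)))) hUG
      rwa [zero_add] at this
    have h2 : E1Hi wG uG ((X b - X r) ^ ε * X b ^ Nb.card * U) := by
      have := e1_hi_mul (e1_hi_zero wG ((X b - X r) ^ ε * X b ^ Nb.card)) hUG
      rwa [zero_add] at this
    have e1 := e1_replace hF b Nb gNb _ h1
    have e2 := e1_replace hF r Nr gNr _ h2
    calc _ = ModB.prL F ((∏ v ∈ Nb, (X b - X v)) *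
          ((X b - X r) ^ ε * (∏ v ∈ Nr, (X r - X v)) * U)) := by congr 1; ring
      _ = _ := e1
      _ = ModB.prL F ((∏ v ∈ Nr, (X r - X v)) * ((X b - X r) ^ ε * X b ^ Nb.card * U)) := by
          congr 1; ring
      _ = _ := e2
      _ = _ := by congr 1; ring
  have hUS := e1_hi_of_hom hS
  have hP : ((X b - X r) ^ ε * X b ^ Nb.card * X r ^ Nr.card * U :
      MvPolynomial V ℝ).IsWeightedHomogeneous wS uS := by
    refine e1_hom_mul0 ?_ hS
    refine e1_hom_mul0 ?_ (e1_hom_pow (e1_hom_X sr) _)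
    exact e1_hom_mul0 (e1_hom_pow (e1_hom_lin sb sr) _) (e1_hom_pow (e1_hom_X sb) _)
  have step2 : ∀ F : MvPolynomial V ℝ, F.IsWeightedHomogeneous wS uS →
      ModB.prL F ((X b + X r) ^ η * (∏ v ∈ Bb, (X b - X v)) * (∏ v ∈ Br, (X r - X v)) *
        X b ^ pb * X r ^ pr * U) =
      ModB.prL F ((X b + X r) ^ η * X b ^ (Bb.card + pb) * X r ^ (Br.card + pr) * U) := by
    intro F hF
    have h1 : E1Hi wS uS ((X b + X r) ^ η * (∏ v ∈ Br, (X r - X v)) * X b ^ pb * X r ^ pr * U) := by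
      have := e1_hi_mul (e1_hi_zero wS
        ((X b + X r) ^ η * (∏ v ∈ Br, (X r - X v)) * X b ^ pb * X r ^ pr)) hUS
      rwa [zero_add] at this
    have h2 : E1Hi wS uS ((X b + X r) ^ η * X b ^ Bb.card * X b ^ pb * X r ^ pr * U) := by
      have := e1_hi_mul (e1_hi_zero wS
        ((X b + X r) ^ η * X b ^ Bb.card * X b ^ pb * X r ^ pr)) hUS
      rwa [zero_add] at this
    have e1 := e1_replace hF b Bb sBb _ h1
    have e2 := e1_replace hF r Br sBr _ h2
    calc _ = ModB.prL F ((∏ v ∈ Bb, (X b - X v)) *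
          ((X b + X r) ^ η * (∏ v ∈ Br, (X r - X v)) * X b ^ pb * X r ^ pr * U)) := by
          congr 1; ring
      _ = _ := e1
      _ = ModB.prL F ((∏ v ∈ Br, (X r - X v)) *
          ((X b + X r) ^ η * X b ^ Bb.card * X b ^ pb * X r ^ pr * U)) := by
          congr 1; ring
      _ = _ := e2
      _ = _ := by congr 1; ring
  rw [step1 _ hF, e1_prL_symm, step2 _ hP, e1_prL_symm]
  have hpos := ModB.prL_self_pos U hU
  have hn := e1_norm b r hbr U hUb hUr
  have hb0 : (0 : ℝ) < (Nb.card.factorial : ℝ) := by exact_mod_cast Nat.factorial_pos _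
  have hr0 : (0 : ℝ) < (Nr.card.factorial : ℝ) := by exact_mod_cast Nat.factorial_pos _
  rcases hnum with ⟨rfl, rfl, h1, h2⟩ | ⟨rfl, rfl, h1, h2⟩ | ⟨rfl, rfl, h1, h2⟩ |
    ⟨rfl, rfl, h1, h2, h3⟩ | ⟨rfl, rfl, h1, h2⟩
  · rw [h1, h2, pow_zero, pow_zero, one_mul, hn]
    simp only [and_self, if_true]
    positivity
  · rw [h1, h2, pow_zero, pow_one, one_mul,
      show (X b - X r) * X b ^ Nb.card * X r ^ Nr.card * U =
        (X b ^ (Nb.card + 1) * X r ^ Nr.card * U - X b ^ Nb.card * X r ^ (Nr.card + 1) * U :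
        MvPolynomial V ℝ) by ring, map_sub, hn, hn]
    rw [if_pos ⟨rfl, rfl⟩, if_neg (by omega), sub_zero]
    have : (0 : ℝ) < ((Nb.card + 1).factorial : ℝ) := by exact_mod_cast Nat.factorial_pos _
    positivity
  · rw [h1, h2, pow_zero, pow_one, one_mul,
      show (X b - X r) * X b ^ Nb.card * X r ^ Nr.card * U =
        (X b ^ (Nb.card + 1) * X r ^ Nr.card * U - X b ^ Nb.card * X r ^ (Nr.card + 1) * U :
        MvPolynomial V ℝ) by ring, map_sub, hn, hn]
    rw [if_neg (by omega), if_pos ⟨rfl, rfl⟩, zero_sub]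
    have : (0 : ℝ) < ((Nr.card + 1).factorial : ℝ) := by exact_mod_cast Nat.factorial_pos _
    exact neg_ne_zero.mpr (by positivity)
  · rw [h1, h2, pow_one, pow_one,
      show (X b - X r) * X b ^ Nb.card * X r ^ Nr.card * U =
        (X b ^ (Nb.card + 1) * X r ^ Nr.card * U - X b ^ Nb.card * X r ^ (Nr.card + 1) * U :
        MvPolynomial V ℝ) by ring,
      show (X b + X r) * X b ^ Nb.card * X r ^ Nr.card * U =
        (X b ^ (Nb.card + 1) * X r ^ Nr.card * U + X b ^ Nb.card * X r ^ (Nr.card + 1) * U :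
        MvPolynomial V ℝ) by ring]
    rw [map_sub, map_add, LinearMap.add_apply, LinearMap.add_apply, hn, hn, hn, hn]
    rw [if_pos ⟨rfl, rfl⟩, if_neg (by omega), if_neg (by omega), if_pos ⟨rfl, rfl⟩]
    rw [Nat.factorial_succ, Nat.factorial_succ]
    push_cast
    have hne : (Nb.card : ℝ) - Nr.card ≠ 0 := by
      rw [sub_ne_zero]; exact_mod_cast h3
    have : (((Nb.card : ℝ) + 1) * (Nb.card.factorial : ℝ) * (Nr.card.factorial : ℝ) *
          ModB.prL U U + 0 -
        (0 + (Nb.card.factorial : ℝ) * (((Nr.card : ℝ) + 1) * (Nr.card.factorial : ℝ)) *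
          ModB.prL U U)) =
        ((Nb.card : ℝ) - Nr.card) * ((Nb.card.factorial : ℝ) * (Nr.card.factorial : ℝ) *
          ModB.prL U U) := by ring
    rw [this]
    exact mul_ne_zero hne (by positivity)
  · obtain ⟨m, hm⟩ : ∃ m, Nb.card = m + 1 := ⟨Bb.card + pb, h1.symm⟩
    have h1' : Bb.card + pb = m := by omega
    rw [h1', h2, hm, pow_one, pow_one,
      show (X b - X r) * X b ^ (m + 1) * X r ^ Nr.card * U =
        (X b ^ (m + 2) * X r ^ Nr.card * U - X b ^ (m + 1) * X r ^ (Nr.card + 1) * U :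
        MvPolynomial V ℝ) by ring,
      show (X b + X r) * X b ^ m * X r ^ (Nr.card + 1) * U =
        (X b ^ (m + 1) * X r ^ (Nr.card + 1) * U + X b ^ m * X r ^ (Nr.card + 2) * U :
        MvPolynomial V ℝ) by ring]
    rw [map_sub, map_add, LinearMap.add_apply, LinearMap.add_apply, hn, hn, hn, hn]
    rw [if_neg (by omega), if_neg (by omega), if_pos ⟨rfl, rfl⟩, if_neg (by omega)]
    have h5 : (0 : ℝ) < ((m + 1).factorial : ℝ) := by exact_mod_cast Nat.factorial_pos _
    have h6 : (0 : ℝ) < ((Nr.card + 1).factorial : ℝ) := by exact_mod_cast Nat.factorial_pos _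
    rw [add_zero, add_zero, zero_sub]
    exact neg_ne_zero.mpr (by positivity)

end PoolPW
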